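import Mathlib

/-!
# MP_c59173_co, Q1: the box-theorem analogue for product sets in groups is false

The four sets below live in the group `D₄ × D₄` of order 64 (`D₄` the dihedral group of order 8).
Write `K₁ = {1, s}`, `K₂ = {1, sr²}` for the two reflection subgroups of the Klein four group
`{1, s, sr², r²}`; conjugation by the rotation `r` exchanges them.

* `S₁ = K₂ × 1`, `S₄ = 1 × K₂`,
* `S₂ = (1 × K₁) ∪ (r × K₂)`,
* `S₃ = (K₁ × 1) ∪ (K₂ × r)`.

Then the product set has 40 elements, `N_{1,3} = N_{2,4} = 6`, and `6 * 6 < 40`.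
-/

open scoped Pointwise

namespace Pool.Agent.Results.MP_c59173_co.NoBox

/-- The product set `S₁ ⋆ ... ⋆ Sₙ`, taken in this order. -/
def prodSet {G : Type*} [Group G] [DecidableEq G] {n : ℕ} (S : Fin n → Finset G) : Finset G :=
  (List.ofFn S).prod

/-- `N_A`: the largest size of a product set obtained by keeping `Sᵢ` for `i ∈ A` and replacing
each `Sᵢ` with `i ∉ A` by a one-element set `{xᵢ}` with `xᵢ ∈ Sᵢ`. -/
def maxCard {G : Type*} [Group G] [DecidableEq G] {n : ℕ} (S : Fin n → Finset G)
    (A : Finset (Fin n)) : ℕ :=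
  (Fintype.piFinset S).sup fun x => (prodSet fun i => if i ∈ A then S i else {x i}).card

/-- The group of the example. -/
abbrev GG : Type := DihedralGroup 4 × DihedralGroup 4

open DihedralGroup in
/-- The four sets of the example. -/
def SS : Fin 4 → Finset GG :=
  ![{(r 0, r 0), (sr 2, r 0)},
    {(r 0, r 0), (r 0, sr 0), (r 1, r 0), (r 1, sr 2)},
    {(r 0, r 0), (sr 0, r 0), (r 0, r 1), (sr 2, r 1)},
    {(r 0, r 0), (r 0, sr 2)}]

lemma card_SS : (prodSet SS).card = 40 := by
  decide +kernel

lemma max02 : maxCard SS {0, 2} = 6 := by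
  decide +kernel

lemma max13 : maxCard SS {1, 3} = 6 := by
  decide +kernel

lemma nonempty_SS : ∀ i, (SS i).Nonempty := by
  decide +kernel

/-- The analogue of the box theorem fails: not every choice of a group and of finitely many
non-empty finite subsets admits positive reals `lam i` with product `|S|` and
`∏_{i ∈ A} lam i ≤ N_A` for all `A`. -/
theorem result :
    ¬ ∀ (G : Type) (_ : Group G) (_ : DecidableEq G) (n : ℕ) (S : Fin n → Finset G),
      1 ≤ n → (∀ i, (S i).Nonempty) →
      ∃ lam : Fin n → ℝ, (∀ i, 0 < lam i) ∧ ∏ i, lam i = ((prodSet S).card : ℝ) ∧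
        ∀ A : Finset (Fin n), ∏ i ∈ A, lam i ≤ (maxCard S A : ℝ) := by
  intro h
  obtain ⟨lam, hpos, hprod, hA⟩ := h GG inferInstance inferInstance 4 SS (by norm_num) nonempty_SS
  have h1 := hA {0, 2}
  have h2 := hA {1, 3}
  rw [max02] at h1
  rw [max13] at h2
  rw [card_SS, Fin.prod_univ_four] at hprod
  rw [Finset.prod_pair (by decide)] at h1 h2
  have p0 := hpos 0
  have p1 := hpos 1
  have p2 := hpos 2
  have p3 := hpos 3
  have h3 : (lam 0 * lam 2) * (lam 1 * lam 3) ≤ 6 * 6 := by
    push_cast at h1 h2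
    exact mul_le_mul h1 h2 (by positivity) (by norm_num)
  push_cast at hprod
  nlinarith [h3, hprod]

end Pool.Agent.Results.MP_c59173_co.NoBox
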